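import Pool.Agent.Q280.AD.Dyn

set_option autoImplicit false

/-! Average degree of the irreducible factors, in terms of the number of roots. -/

namespace Q280.AD

open Polynomial UniqueFactorizationMonoid

variable {F : Type*} [Field F]

theorem mem_factors {f : F[X]} {p : F[X]} (hp : p ∈ factors f) :
    Irreducible p ∧ p ∣ f ∧ p.Monic := by
  classical
  unfold factors at hp
  rw [Multiset.mem_toFinset] at hp
  refine ⟨irreducible_of_normalized_factor p hp, dvd_of_mem_normalizedFactors hp, ?_⟩
  have h1 := normalize_normalized_factor p hp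
  have h2 : p ≠ 0 := (irreducible_of_normalized_factor p hp).ne_zero
  rw [← h1]
  exact monic_normalize h2

theorem card_small [Finite F] (f : F[X]) (k : ℕ) :
    ((factors f).filter (fun p => p.natDegree < k)).card ≤ (Nat.card F) ^ k := by
  classical
  have := Fintype.ofFinite F
  have h1 : ((factors f).filter (fun p => p.natDegree < k)).card
      ≤ (Finset.univ : Finset (Fin k → F)).card := by
    refine Finset.card_le_card_of_injOn (fun p => fun i : Fin k => p.coeff i) (fun _ _ => by simp) ?_
    intro p hp q hq hpq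
    simp only [Finset.coe_filter, Set.mem_ofPred_eq] at hp hq
    ext i
    by_cases hi : i < k
    · exact congrFun hpq ⟨i, hi⟩
    · rw [coeff_eq_zero_of_natDegree_lt (by omega), coeff_eq_zero_of_natDegree_lt (by omega)]
  refine h1.trans ?_
  rw [Finset.card_univ, Fintype.card_fun, Fintype.card_fin, Nat.card_eq_fintype_card]

theorem mul_numFactors_le [Finite F] (f : F[X]) (k : ℕ) :
    k * numFactors f ≤ delta f + k * (Nat.card F) ^ k := by
  classical
  have h1 := card_small f k
  have h2 := Finset.card_filter_add_card_filter_not (s := factors f) (fun p => p.natDegree < k)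
  have h3 : k * ((factors f).filter (fun p => ¬ p.natDegree < k)).card ≤ delta f := by
    unfold delta
    calc k * ((factors f).filter (fun p => ¬ p.natDegree < k)).card
        = ∑ _p ∈ (factors f).filter (fun p => ¬ p.natDegree < k), k := by
          rw [Finset.sum_const, smul_eq_mul, mul_comm]
      _ ≤ ∑ p ∈ (factors f).filter (fun p => ¬ p.natDegree < k), p.natDegree := by
          refine Finset.sum_le_sum fun p hp => ?_
          rw [Finset.mem_filter] at hp
          omega
      _ ≤ _ := Finset.sum_le_sum_of_subset (Finset.filter_subset _ _)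
  unfold numFactors
  rw [← h2, mul_add]
  have := Nat.mul_le_mul_left k h1
  omega

variable {K : Type*} [Field K] [IsAlgClosed K] [DecidableEq K] [Algebra F K]

set_option linter.unusedSectionVars false

theorem rootsK_factor {f : F[X]} (hf : f ≠ 0) {x : K} (hx : x ∈ rootsK K f) :
    ∃ p ∈ factors f, x ∈ rootsK K p := by
  classical
  rw [mem_rootsK hf] at hx
  have h1 : Associated (normalizedFactors f).prod f := prod_normalizedFactors hf
  obtain ⟨u, hu⟩ := h1
  have h2 : aeval x ((normalizedFactors f).prod) = 0 := by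
    have : aeval x ((normalizedFactors f).prod) * aeval x (u : F[X]) = 0 := by
      rw [← map_mul, hu, hx]
    refine (mul_eq_zero.1 this).resolve_right ?_
    have h3 : IsUnit (aeval x (u : F[X])) := u.isUnit.map (aeval x)
    exact h3.ne_zero
  rw [map_multiset_prod, Multiset.prod_eq_zero_iff, Multiset.mem_map] at h2
  obtain ⟨p, hp, hpx⟩ := h2
  refine ⟨p, ?_, ?_⟩
  · unfold factors; rw [Multiset.mem_toFinset]; exact hp
  · rw [mem_rootsK (irreducible_of_normalized_factor p hp).ne_zero]; exact hpx

theorem card_roots_le_delta {f : F[X]} (hf : f ≠ 0) : (rootsK K f).card ≤ delta f := by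
  have h1 : rootsK K f ⊆ (factors f).biUnion (rootsK K) := by
    intro x hx
    rw [Finset.mem_biUnion]
    exact rootsK_factor hf hx
  refine (Finset.card_le_card h1).trans (Finset.card_biUnion_le.trans ?_)
  unfold delta
  refine Finset.sum_le_sum fun p _ => ?_
  unfold rootsK
  refine (Multiset.toFinset_card_le _).trans ((card_roots' _).trans ?_)
  rw [natDegree_map]

theorem delta_le_card_roots [Finite F] {f : F[X]} (hf : f ≠ 0) :
    delta f ≤ (rootsK K f).card := by
  have h1 : (factors f).biUnion (rootsK K) ⊆ rootsK K f := by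
    intro x hx
    rw [Finset.mem_biUnion] at hx
    obtain ⟨p, hp, hpx⟩ := hx
    obtain ⟨h2, h3, _⟩ := mem_factors hp
    rw [mem_rootsK h2.ne_zero] at hpx
    rw [mem_rootsK hf]
    obtain ⟨r, hr⟩ := h3
    rw [hr, map_mul, hpx, zero_mul]
  refine le_trans ?_ (Finset.card_le_card h1)
  rw [Finset.card_biUnion]
  · unfold delta
    refine Finset.sum_le_sum fun p hp => ?_
    obtain ⟨h2, _, _⟩ := mem_factors hp
    have h4 : p.Separable := PerfectField.separable_of_irreducible h2
    unfold rootsK
    rw [Multiset.toFinset_card_of_nodup (nodup_roots h4.map), IsAlgClosed.card_roots_eq_natDegree,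
      natDegree_map]
  · intro p hp q hq hpq
    change Disjoint _ _
    rw [Finset.disjoint_left]
    intro x hx hy
    obtain ⟨h2, _, h4⟩ := mem_factors hp
    obtain ⟨h5, _, h7⟩ := mem_factors hq
    rw [mem_rootsK h2.ne_zero] at hx
    rw [mem_rootsK h5.ne_zero] at hy
    apply hpq
    have hcop : ¬ IsCoprime p q := by
      rintro ⟨r, s, hrs⟩
      have := congrArg (aeval x) hrs
      simp [hx, hy] at this
    have h8 : p ∣ q := by
      by_contra h
      exact hcop ((h2.coprime_iff_not_dvd).2 h)
    exact eq_of_monic_of_associated h4 h7 (h2.associated_of_dvd h5 h8)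

theorem seq_growth {t : ℕ → ℕ} {d : ℕ} (hd : 2 ≤ d) (h : ∀ n, d * t n ≤ t (n + 1) + 3 * d)
    {n0 : ℕ} (h0 : 7 ≤ t n0) (k : ℕ) : 2 ^ k + 6 ≤ t (n0 + k) := by
  induction k with
  | zero => simpa using h0
  | succ k ih =>
    have h1 := h (n0 + k)
    have h5 := Nat.one_le_two_pow (n := k)
    obtain ⟨s, hs⟩ : ∃ s, t (n0 + k) = s + 3 := ⟨t (n0 + k) - 3, by omega⟩
    rw [hs] at h1 ih
    have h2 : d * s ≤ t (n0 + k + 1) := by
      have : d * (s + 3) = d * s + 3 * d := by ring
      omega
    have h3 : 2 * s ≤ d * s := Nat.mul_le_mul_right _ hd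
    rw [← add_assoc, pow_succ]
    omega

theorem avg_growth [Finite F] {P : ℕ → F[X]} (hP : ∀ n, P n ≠ 0) {n0 : ℕ}
    (h : ∀ k, 2 ^ k ≤ (rootsK K (P (n0 + k))).card) :
    ∃ c : ℝ, 0 < c ∧ ∀ᶠ n : ℕ in Filter.atTop, c * n ≤ averageDegree (P n) := by
  obtain ⟨q, hq⟩ : ∃ q, q = Nat.card F := ⟨_, rfl⟩
  obtain ⟨m, hm⟩ : ∃ m, m = q + 1 := ⟨_, rfl⟩
  have hmpos : (0 : ℝ) < m := by rw [hm]; positivity
  refine ⟨1 / (4 * m), by positivity, ?_⟩
  filter_upwards [Filter.eventually_ge_atTop (2 * n0 + 2 * m)] with n hn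
  obtain ⟨j, rfl⟩ : ∃ j, n = n0 + j := ⟨n - n0, by omega⟩
  obtain ⟨k, hk⟩ : ∃ k, k = j / m := ⟨_, rfl⟩
  have hmk : m * k ≤ j := by rw [hk]; exact Nat.mul_div_le j m
  have hmk' : j < m * (k + 1) := by
    rw [hk]; exact Nat.lt_mul_div_succ j (by omega)
  have h1 : k * q ^ k ≤ delta (P (n0 + j)) := by
    calc k * q ^ k ≤ 2 ^ k * q ^ k := Nat.mul_le_mul_right _ (Nat.lt_two_pow_self).le
      _ = (2 * q) ^ k := (mul_pow _ _ _).symm
      _ ≤ (2 ^ m) ^ k := by
        refine Nat.pow_le_pow_left ?_ _
        rw [hm, pow_succ, mul_comm]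
        exact Nat.mul_le_mul_right _ (Nat.lt_two_pow_self).le
      _ = 2 ^ (m * k) := (pow_mul _ _ _).symm
      _ ≤ 2 ^ j := Nat.pow_le_pow_right (by norm_num) hmk
      _ ≤ _ := (h j).trans (card_roots_le_delta (hP _))
  have h2 := mul_numFactors_le (P (n0 + j)) k
  rw [← hq] at h2
  have h3 : k * numFactors (P (n0 + j)) ≤ 2 * delta (P (n0 + j)) := by omega
  have h4 : 1 ≤ delta (P (n0 + j)) := by
    have := (h j).trans (card_roots_le_delta (hP _))
    exact (Nat.one_le_two_pow).trans this
  have h5 : 0 < numFactors (P (n0 + j)) := by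
    unfold numFactors
    rw [Finset.card_pos]
    by_contra hne
    rw [Finset.not_nonempty_iff_eq_empty] at hne
    unfold delta at h4
    rw [hne] at h4
    simp at h4
  unfold averageDegree
  have h6 : (0 : ℝ) < numFactors (P (n0 + j)) := by exact_mod_cast h5
  rw [le_div_iff₀ h6]
  have h7 : (k : ℝ) * numFactors (P (n0 + j)) ≤ 2 * delta (P (n0 + j)) := by exact_mod_cast h3
  have h8 : ((n0 + j : ℕ) : ℝ) ≤ 2 * (m * k) := by
    have : n0 + j ≤ 2 * (m * k) := by
      have e1 : m * (k + 1) = m * k + m := by ring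
      omega
    exact_mod_cast this
  have h9 : 1 / (4 * (m : ℝ)) * ((n0 + j : ℕ) : ℝ) ≤ k / 2 := by
    rw [div_mul_eq_mul_div, div_le_div_iff₀ (by positivity) (by norm_num)]
    nlinarith
  calc 1 / (4 * (m : ℝ)) * ((n0 + j : ℕ) : ℝ) * numFactors (P (n0 + j))
      ≤ k / 2 * numFactors (P (n0 + j)) := mul_le_mul_of_nonneg_right h9 h6.le
    _ ≤ _ := by linarith

end Q280.AD
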