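import Mathlib

set_option autoImplicit false

/-! Fibres of a rational function `g / h` over an algebraically closed field. -/

namespace Q280.AD

open Polynomial

set_option linter.unusedSectionVars false

variable {K : Type*} [Field K] [IsAlgClosed K] [DecidableEq K]

/-- degree of `g / h` -/
noncomputable def dg (g h : K[X]) : ℕ := max g.natDegree h.natDegree

/-- finite fibre over `s` -/
noncomputable def fib (g h : K[X]) (s : K) : Finset K := (g - C s * h).roots.toFinset

theorem cop_eval {g h : K[X]} (hc : IsCoprime g h) (x : K) :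
    ¬ (g.eval x = 0 ∧ h.eval x = 0) := by
  rintro ⟨h1, h2⟩
  obtain ⟨a, b, hab⟩ := hc
  have := congrArg (Polynomial.eval x) hab
  simp [h1, h2] at this

theorem sub_ne_zero' {g h : K[X]} (hc : IsCoprime g h) (hd : 1 ≤ dg g h) (s : K) :
    g - C s * h ≠ 0 := by
  intro h0
  have h1 : g = C s * h := sub_eq_zero.1 h0
  have h2 : IsUnit h := by
    have : h ∣ g := ⟨C s, by rw [h1]; ring⟩
    exact hc.isUnit_of_dvd' this dvd_rfl
  have h3 : h.natDegree = 0 := natDegree_eq_zero_of_isUnit h2
  have h4 : g.natDegree = 0 := by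
    have := natDegree_C_mul_le s h
    rw [← h1] at this
    omega
  unfold dg at hd
  omega

theorem mem_fib {g h : K[X]} (hc : IsCoprime g h) (hd : 1 ≤ dg g h) (s x : K) :
    x ∈ fib g h s ↔ g.eval x = s * h.eval x := by
  unfold fib
  rw [Multiset.mem_toFinset, mem_roots (sub_ne_zero' hc hd s), IsRoot.def]
  simp [sub_eq_zero]

theorem fib_den {g h : K[X]} (hc : IsCoprime g h) (hd : 1 ≤ dg g h) {s x : K}
    (hx : x ∈ fib g h s) : h.eval x ≠ 0 := by
  intro h0
  rw [mem_fib hc hd, h0, mul_zero] at hx
  exact cop_eval hc x ⟨hx, h0⟩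

theorem fib_disj {g h : K[X]} (hc : IsCoprime g h) (hd : 1 ≤ dg g h) {s t : K}
    (hst : s ≠ t) : Disjoint (fib g h s) (fib g h t) := by
  rw [Finset.disjoint_left]
  intro x hx hy
  have h1 := fib_den hc hd hx
  rw [mem_fib hc hd] at hx hy
  rw [hx] at hy
  exact hst (mul_right_cancel₀ h1 hy)

/-- the Wronskian -/
noncomputable def wr (g h : K[X]) : K[X] := derivative g * h - g * derivative h

theorem wr_natDegree (g h : K[X]) : (wr g h).natDegree ≤ 2 * dg g h := by
  unfold wr dg
  refine (natDegree_sub_le _ _).trans (max_le ?_ ?_)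
  · refine (natDegree_mul_le).trans ?_
    have := natDegree_derivative_le g
    have h1 := le_max_left g.natDegree h.natDegree
    have h2 := le_max_right g.natDegree h.natDegree
    omega
  · refine (natDegree_mul_le).trans ?_
    have := natDegree_derivative_le h
    have h1 := le_max_left g.natDegree h.natDegree
    have h2 := le_max_right g.natDegree h.natDegree
    omega

theorem wr_eq (g h : K[X]) (s : K) :
    wr g h = derivative (g - C s * h) * h - (g - C s * h) * derivative h := by
  unfold wr
  simp only [derivative_sub, derivative_mul, derivative_C, zero_mul, zero_add]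
  ring

theorem count_le_wr {g h : K[X]} (hW : wr g h ≠ 0) (s x : K) :
    (g - C s * h).roots.count x ≤ 1 + (wr g h).roots.count x := by
  rw [count_roots, count_roots]
  set p := g - C s * h with hp
  set m := p.rootMultiplicity x with hm
  have h1 : (X - C x) ^ m ∣ p := pow_rootMultiplicity_dvd p x
  have h2 : (X - C x) ^ (m - 1) ∣ derivative p := pow_sub_one_dvd_derivative_of_pow_dvd h1
  have h3 : (X - C x) ^ (m - 1) ∣ wr g h := by
    rw [wr_eq g h s]
    refine dvd_sub (h2.mul_right _) (Dvd.dvd.mul_right ?_ _)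
    exact (pow_dvd_pow _ (Nat.sub_le m 1)).trans h1
  have h4 : m - 1 ≤ (wr g h).rootMultiplicity x := (le_rootMultiplicity_iff hW).2 h3
  omega

/-- exceptional values -/
theorem natDegree_sub {g h : K[X]} {s : K}
    (hs : g.coeff (dg g h) ≠ s * h.coeff (dg g h)) : (g - C s * h).natDegree = dg g h := by
  refine le_antisymm ?_ ?_
  · refine (natDegree_sub_le _ _).trans (max_le (le_max_left _ _) ?_)
    exact (natDegree_C_mul_le _ _).trans (le_max_right _ _)
  · refine le_natDegree_of_ne_zero ?_
    simp only [coeff_sub, coeff_C_mul]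
    exact sub_ne_zero.2 hs

theorem exc_card {g h : K[X]} (hc : IsCoprime g h) (S : Finset K) :
    (S.filter (fun s => g.coeff (dg g h) = s * h.coeff (dg g h))).card ≤ 1 := by
  rw [Finset.card_le_one]
  intro a ha b hb
  rw [Finset.mem_filter] at ha hb
  by_cases h0 : h.coeff (dg g h) = 0
  · exfalso
    have h1 : g.coeff (dg g h) = 0 := by rw [ha.2, h0, mul_zero]
    have key : g = 0 ∧ h = 0 := by
      unfold dg at h0 h1
      rcases le_total g.natDegree h.natDegree with hl | hl
      · rw [max_eq_right hl] at h0 h1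
        have hh : h = 0 := leadingCoeff_eq_zero.1 h0
        rw [hh] at hl h1
        simp only [natDegree_zero, nonpos_iff_eq_zero] at hl h1
        refine ⟨?_, hh⟩
        rw [← hl] at h1
        exact leadingCoeff_eq_zero.1 h1
      · rw [max_eq_left hl] at h0 h1
        have hh : g = 0 := leadingCoeff_eq_zero.1 h1
        rw [hh] at hl h0
        simp only [natDegree_zero, nonpos_iff_eq_zero] at hl h0
        refine ⟨hh, ?_⟩
        rw [← hl] at h0
        exact leadingCoeff_eq_zero.1 h0
    rw [key.1, key.2] at hc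
    exact not_isCoprime_zero_zero hc
  · exact mul_right_cancel₀ h0 (ha.2.symm.trans hb.2)

theorem growth {g h : K[X]} (hc : IsCoprime g h) (hd : 1 ≤ dg g h) (hW : wr g h ≠ 0)
    (S : Finset K) :
    dg g h * S.card ≤ (S.biUnion (fib g h)).card + 3 * dg g h := by
  obtain ⟨d, hdd⟩ : ∃ d, d = dg g h := ⟨_, rfl⟩
  obtain ⟨S', hS'⟩ : ∃ S', S' = S.filter (fun s => ¬ g.coeff (dg g h) = s * h.coeff (dg g h)) :=
    ⟨_, rfl⟩
  rw [← hdd]
  have hcard : S.card ≤ S'.card + 1 := by
    have h1 := exc_card hc S
    have h2 := Finset.card_filter_add_card_filter_not (s := S)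
      (fun s => g.coeff (dg g h) = s * h.coeff (dg g h))
    rw [← hS'] at h2
    omega
  have hsub : S'.biUnion (fib g h) ⊆ S.biUnion (fib g h) := by
    rw [hS']
    exact Finset.biUnion_subset_biUnion_of_subset_left _ (Finset.filter_subset _ _)
  have hdis : (S' : Set K).PairwiseDisjoint (fib g h) := by
    intro a _ b _ hab
    exact fib_disj hc hd hab
  have h1 : ∀ s ∈ S', d ≤ ∑ x ∈ fib g h s, (1 + (wr g h).roots.count x) := by
    intro s hs
    rw [hS', Finset.mem_filter] at hs
    have h2 : (g - C s * h).roots.card = d := by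
      rw [IsAlgClosed.card_roots_eq_natDegree, natDegree_sub hs.2, hdd]
    calc d = ∑ x ∈ fib g h s, (g - C s * h).roots.count x := by
          unfold fib; rw [Multiset.toFinset_sum_count_eq, h2]
      _ ≤ _ := Finset.sum_le_sum fun x _ => count_le_wr hW s x
  have h3 : S'.card * d ≤ ∑ x ∈ S'.biUnion (fib g h), (1 + (wr g h).roots.count x) := by
    rw [Finset.sum_biUnion hdis]
    calc S'.card * d = ∑ _s ∈ S', d := by rw [Finset.sum_const, smul_eq_mul]
      _ ≤ _ := Finset.sum_le_sum h1
  have h4 : ∑ x ∈ S'.biUnion (fib g h), (wr g h).roots.count x ≤ (wr g h).roots.card := by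
    have h5 : ∑ x ∈ S'.biUnion (fib g h), (wr g h).roots.count x
        ≤ ∑ x ∈ (S'.biUnion (fib g h)) ∪ (wr g h).roots.toFinset, (wr g h).roots.count x :=
      Finset.sum_le_sum_of_subset Finset.subset_union_left
    refine h5.trans (le_of_eq ?_)
    rw [← Multiset.toFinset_sum_count_eq (wr g h).roots]
    symm
    refine Finset.sum_subset Finset.subset_union_right ?_
    intro x _ hx
    rw [Multiset.mem_toFinset] at hx
    exact Multiset.count_eq_zero.2 hx
  have h6 : (wr g h).roots.card ≤ 2 * d := by
    rw [hdd]; exact (card_roots' _).trans (wr_natDegree g h)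
  have h7 := Finset.card_le_card hsub
  rw [Finset.sum_add_distrib, Finset.sum_const, smul_eq_mul, mul_one] at h3
  have h8 : d * S.card ≤ d * (S'.card + 1) := Nat.mul_le_mul_left _ hcard
  have h9 : S'.card * d = d * S'.card := mul_comm _ _
  rw [mul_add, mul_one] at h8
  omega

/-- fibres have at most `d` elements -/
theorem fib_card {g h : K[X]} (s : K) : (fib g h s).card ≤ dg g h := by
  unfold fib
  refine (Multiset.toFinset_card_le _).trans ((card_roots' _).trans ?_)
  refine (natDegree_sub_le _ _).trans (max_le (le_max_left _ _) ?_)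
  exact (natDegree_C_mul_le _ _).trans (le_max_right _ _)

end Q280.AD
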