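import Mathlib

set_option autoImplicit false

/-! Definitions for iterated rational transforms of polynomials over a finite field. -/

namespace Q280.AD

open Polynomial

variable {F : Type*} [Field F]

/-- The binary form of degree `D` with the coefficients of `a`, evaluated at `(u, v)`:
`∑_{i ≤ D} a_i u ^ i v ^ (D - i)`. -/
noncomputable def hom {A : Type*} [CommRing A] [Algebra F A] (D : ℕ) (a : F[X]) (u v : A) : A :=
  ∑ i ∈ Finset.range (D + 1), algebraMap F A (a.coeff i) * u ^ i * v ^ (D - i)

/-- The `R`-transform `f_R = h ^ k f (g / h)` of a polynomial `f` of degree `k`,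
where `R = g / h` in lowest terms. -/
noncomputable def transform (R : RatFunc F) (f : F[X]) : F[X] :=
  hom f.natDegree f R.num R.denom

/-- The iterated transforms: `f_R^{(0)} = f` and `f_R^{(n + 1)} = (f_R^{(n)})_R`. -/
noncomputable def transforms (R : RatFunc F) (f : F[X]) : ℕ → F[X]
  | 0 => f
  | n + 1 => transform R (transforms R f n)

/-- The iterates of a rational function: `R^{(0)} = X` and `R^{(n + 1)} = R^{(n)} ∘ R`. -/
noncomputable def iter (R : RatFunc F) : ℕ → RatFunc F
  | 0 => RatFunc.X
  | n + 1 => RatFunc.eval RatFunc.C R (iter R n)

/-- The solutions of `S (x) = α` in an extension field. -/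
def solutions {K : Type*} [Field K] [Algebra F K] (S : RatFunc F) (α : K) : Set K :=
  {x | aeval x S.denom ≠ 0 ∧ aeval x S.num / aeval x S.denom = α}

/-- `α` is `R`-critical: the number of solutions of `R^{(n)} (x) = α` is bounded. -/
def IsCritical {K : Type*} [Field K] [Algebra F K] (R : RatFunc F) (α : K) : Prop :=
  ∃ B : ℕ, ∀ n, (solutions (iter R n) α).encard ≤ B

/-- `S (∞) = α`, for a rational function `S` and `α` in an extension field. -/
def TakesAtInfinity {K : Type*} [Field K] [Algebra F K] (S : RatFunc F) (α : K) : Prop :=
  S.num.natDegree ≤ S.denom.natDegree ∧ algebraMap F K (S.num.coeff S.denom.natDegree) = α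

open Classical in
/-- The distinct irreducible factors of `f`. -/
noncomputable def factors (f : F[X]) : Finset F[X] :=
  (UniqueFactorizationMonoid.normalizedFactors f).toFinset

/-- The number of distinct irreducible factors. -/
noncomputable def numFactors (f : F[X]) : ℕ := (factors f).card

/-- The degree of the squarefree part: the sum of the degrees of the distinct irreducible
factors. -/
noncomputable def delta (f : F[X]) : ℕ := ∑ p ∈ factors f, p.natDegree

/-- The average degree of the distinct irreducible factors. -/
noncomputable def averageDegree (f : F[X]) : ℝ := (delta f : ℝ) / (numFactors f : ℝ)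

end Q280.AD
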