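import Pool.Agent.Q280.AD.Hom

set_option autoImplicit false

/-! The dynamics: growth of the numbers of roots of the transforms. -/

namespace Q280.AD

open Polynomial

variable {F : Type*} [Field F] {K : Type*} [Field K] [IsAlgClosed K] [DecidableEq K] [Algebra F K]

set_option linter.unusedSectionVars false

variable (K) in
/-- numerator over `K` -/
noncomputable def gK (R : RatFunc F) : K[X] := R.num.map (algebraMap F K)

variable (K) in
/-- denominator over `K` -/
noncomputable def hK (R : RatFunc F) : K[X] := R.denom.map (algebraMap F K)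

variable (K) in
/-- roots in `K` -/
noncomputable def rootsK (f : F[X]) : Finset K := (f.map (algebraMap F K)).roots.toFinset

theorem mem_rootsK {f : F[X]} (hf : f ≠ 0) (x : K) : x ∈ rootsK K f ↔ aeval x f = 0 := by
  unfold rootsK
  rw [Multiset.mem_toFinset, mem_roots ((Polynomial.map_ne_zero_iff
    (algebraMap F K).injective).2 hf), IsRoot.def, eval_map_algebraMap]

theorem cop_K (R : RatFunc F) : IsCoprime (gK K R) (hK K R) :=
  R.isCoprime_num_denom.map (mapRingHom (algebraMap F K))

theorem dg_K (R : RatFunc F) : dg (gK K R) (hK K R) = rdeg R := by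
  unfold dg gK hK rdeg
  rw [natDegree_map, natDegree_map]

variable (K) in
/-- fibre of `R` -/
noncomputable def fibR (R : RatFunc F) (s : K) : Finset K := fib (gK K R) (hK K R) s

theorem mem_fibR {R : RatFunc F} (hE : 1 ≤ rdeg R) (s x : K) :
    x ∈ fibR K R s ↔ aeval x R.num = s * aeval x R.denom := by
  unfold fibR
  rw [mem_fib (cop_K R) (by rw [dg_K]; exact hE)]
  unfold gK hK
  rw [eval_map_algebraMap, eval_map_algebraMap]

theorem fibR_den {R : RatFunc F} (hE : 1 ≤ rdeg R) {s x : K} (hx : x ∈ fibR K R s) :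
    aeval x R.denom ≠ 0 := by
  have := fib_den (cop_K R) (by rw [dg_K]; exact hE) hx
  unfold hK at this
  rwa [eval_map_algebraMap] at this

theorem num_ne_of_den {R : RatFunc F} {x : K} (hx : aeval x R.denom = 0) :
    aeval x R.num ≠ 0 := by
  intro h
  obtain ⟨r, s, hrs⟩ := R.isCoprime_num_denom
  have := congrArg (aeval x) hrs
  simp [h, hx] at this

theorem mem_fibR_iff_solutions {R : RatFunc F} (hE : 1 ≤ rdeg R) (s x : K) :
    x ∈ fibR K R s ↔ x ∈ solutions R s := by
  constructor
  · intro h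
    have h1 := fibR_den hE h
    rw [mem_fibR hE] at h
    exact ⟨h1, by rw [h]; field_simp⟩
  · rintro ⟨h1, h2⟩
    rw [mem_fibR hE, ← h2]
    field_simp

theorem aeval_transform (R : RatFunc F) (f : F[X]) (x : K) :
    aeval x (transform R f) = hom f.natDegree f (aeval x R.num) (aeval x R.denom) := by
  unfold transform
  exact hom_map (aeval x) _ _ _ _

theorem aeval_transform_eq_zero {R : RatFunc F} (hE : 1 ≤ rdeg R) {f : F[X]} (hf : f ≠ 0)
    (x : K) : aeval x (transform R f) = 0 ↔ ∃ s ∈ rootsK K f, x ∈ fibR K R s := by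
  rw [aeval_transform]
  by_cases hx : aeval x R.denom = 0
  · rw [hx, hom_zero_right]
    constructor
    · intro h
      exfalso
      rcases mul_eq_zero.1 h with h | h
      · have : f.leadingCoeff = 0 := (map_eq_zero _).1 h
        exact hf (leadingCoeff_eq_zero.1 this)
      · exact absurd h (pow_ne_zero _ (num_ne_of_den hx))
    · rintro ⟨s, _, hs⟩
      exact absurd hx (fibR_den hE hs)
  · rw [hom_div le_rfl _ hx]
    constructor
    · intro h
      have h1 := (mul_eq_zero.1 h).resolve_left (pow_ne_zero _ hx)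
      refine ⟨aeval x R.num / aeval x R.denom, (mem_rootsK hf _).2 h1, ?_⟩
      rw [mem_fibR hE]
      field_simp
    · rintro ⟨s, hs, hxs⟩
      rw [mem_rootsK hf] at hs
      rw [mem_fibR hE] at hxs
      have : aeval x R.num / aeval x R.denom = s := by rw [hxs]; field_simp
      rw [this, hs, mul_zero]

theorem transform_ne_zero (K : Type*) [Field K] [IsAlgClosed K] [DecidableEq K] [Algebra F K]
    {R : RatFunc F} (hE : 1 ≤ rdeg R) {f : F[X]} (hf : f ≠ 0) :
    transform R f ≠ 0 := by
  intro h0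
  have h1 : ∀ x : K, x ∈ (rootsK K f).biUnion (fibR K R) := by
    intro x
    have : aeval x (transform R f) = 0 := by rw [h0]; simp
    rw [aeval_transform_eq_zero hE hf] at this
    rw [Finset.mem_biUnion]
    exact this
  have : Infinite K := IsAlgClosed.instInfinite
  exact (Set.infinite_univ (α := K)) ((Finset.finite_toSet _).subset fun x _ => h1 x)

theorem rootsK_transform {R : RatFunc F} (hE : 1 ≤ rdeg R) {f : F[X]} (hf : f ≠ 0) :
    rootsK K (transform R f) = (rootsK K f).biUnion (fibR K R) := by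
  ext x
  rw [mem_rootsK (transform_ne_zero K hE hf), aeval_transform_eq_zero hE hf, Finset.mem_biUnion]

theorem transforms_ne_zero (K : Type*) [Field K] [IsAlgClosed K] [DecidableEq K] [Algebra F K]
    {R : RatFunc F} (hE : 1 ≤ rdeg R) {f : F[X]} (hf : f ≠ 0) (n : ℕ) :
    transforms R f n ≠ 0 := by
  induction n with
  | zero => exact hf
  | succ n ih => exact transform_ne_zero K hE ih

theorem rdeg_iter (K : Type*) [Field K] [IsAlgClosed K] [Algebra F K] {R : RatFunc F}
    (hE : 1 ≤ rdeg R) (n : ℕ) : 1 ≤ rdeg (iter R n) := by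
  induction n with
  | zero => exact (rdeg_X (F := F)).ge
  | succ n ih =>
    have : iter R (n + 1) = comp (iter R n) R := rfl
    rw [this, rdeg_comp K _ _ hE]
    exact Nat.mul_pos ih hE

/-- one more preimage -/
theorem sol_step {R : RatFunc F} (hE : 1 ≤ rdeg R) {n : ℕ} {α x y : K}
    (hy : y ∈ solutions (iter R n) α) (hx : x ∈ fibR K R y) :
    x ∈ solutions (iter R (n + 1)) α := by
  have hd := fibR_den hE hx
  rw [mem_fibR hE] at hx
  rw [mem_solutions] at hy ⊢
  have h1 : iter R (n + 1) = comp (iter R n) R := rfl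
  obtain ⟨c, hc, h⟩ := sv_comp K (iter R n) R hE
  have h2 : sv R ((x, 1) : K × K) = (aeval x R.denom) • ((y, 1) : K × K) := by
    unfold sv
    dsimp only
    rw [hom_one (num_le R), hom_one (den_le R), hx]
    simp [mul_comm]
  have h3 : sv (iter R (n + 1)) ((x, 1) : K × K)
      = (c * (aeval x R.denom) ^ (rdeg (iter R n))) • sv (iter R n) ((y, 1) : K × K) := by
    rw [h1, h, h2, sv_smul, smul_smul]
  rw [h3]
  have h4 : c * (aeval x R.denom) ^ (rdeg (iter R n)) ≠ 0 := mul_ne_zero hc (pow_ne_zero _ hd)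
  simp only [Prod.smul_fst, Prod.smul_snd, smul_eq_mul]
  exact ⟨mul_ne_zero h4 hy.1, by rw [hy.2]; ring⟩

/-- the cross product -/
def cr (v w : K × K) : K := v.1 * w.2 - v.2 * w.1

theorem hom_mapK {D : ℕ} (a : F[X]) (u v : K) :
    hom D a u v = hom D (a.map (algebraMap F K)) u v := by
  unfold hom
  simp

theorem hom_pow {D m : ℕ} {a : K[X]} (ha : a.natDegree ≤ D) (u v : K) :
    hom (m * D) (a ^ m) u v = (hom D a u v) ^ m := by
  by_cases hv : v = 0
  · rw [hv, hom_zero_right, hom_zero_right, coeff_pow_of_natDegree_le ha, mul_pow, map_pow,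
      ← pow_mul, mul_comm m D]
  · rw [hom_div ha u hv, hom_div (natDegree_pow_le.trans (Nat.mul_le_mul_left _ ha)) u hv, mul_pow,
      map_pow, ← pow_mul, mul_comm m D]

theorem hom_deg_one (a : K[X]) (u v : K) : hom 1 a u v = a.coeff 1 * u + a.coeff 0 * v := by
  unfold hom
  simp [Finset.sum_range_succ]
  ring

theorem wr_deg_one {G H : K[X]} (hd : dg G H = 1) :
    wr G H = C (G.coeff 1 * H.coeff 0 - G.coeff 0 * H.coeff 1) := by
  have hG : G.natDegree ≤ 1 := hd ▸ le_max_left _ _
  have hH : H.natDegree ≤ 1 := hd ▸ le_max_right _ _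
  obtain ⟨a, b, rfl⟩ := exists_eq_X_add_C_of_natDegree_le_one hG
  obtain ⟨c, d, rfl⟩ := exists_eq_X_add_C_of_natDegree_le_one hH
  unfold wr
  simp only [derivative_add, derivative_mul, derivative_C, derivative_X, zero_mul, zero_add,
    mul_one, add_zero, coeff_add, coeff_C_mul, coeff_X_one, coeff_X_zero, coeff_C_zero, coeff_C_succ,
    mul_zero, map_sub, map_mul]
  ring

variable (p : ℕ) [Fact p.Prime] [CharP K p]

theorem cross_step {R : RatFunc F} {G H : K[X]} {e : ℕ} (hW : wr G H ≠ 0) (hdG : dg G H = 1)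
    (hg : gK K R = G ^ (p ^ e)) (hh : hK K R = H ^ (p ^ e)) (v w : K × K) :
    ∃ c : K, c ≠ 0 ∧ cr (sv R v) (sv R w) = c * (cr v w) ^ (p ^ e) := by
  have hE : rdeg R = p ^ e * 1 := by
    rw [← dg_K (K := K) R, hg, hh, ← hdG]
    unfold dg
    rw [natDegree_pow, natDegree_pow, Nat.mul_max_mul_left]
  have hG : G.natDegree ≤ 1 := hdG ▸ le_max_left _ _
  have hH : H.natDegree ≤ 1 := hdG ▸ le_max_right _ _
  have h1 : ∀ v : K × K, sv R v = ((hom 1 G v.1 v.2) ^ (p ^ e), (hom 1 H v.1 v.2) ^ (p ^ e)) := by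
    intro v
    unfold sv
    rw [hom_mapK, hom_mapK (a := R.denom)]
    have e1 : R.num.map (algebraMap F K) = G ^ (p ^ e) := hg
    have e2 : R.denom.map (algebraMap F K) = H ^ (p ^ e) := hh
    rw [e1, e2, hE, hom_pow hG, hom_pow hH]
  have h2 : G.coeff 1 * H.coeff 0 - G.coeff 0 * H.coeff 1 ≠ 0 := by
    intro h0
    rw [wr_deg_one hdG, h0] at hW
    simp at hW
  refine ⟨(G.coeff 1 * H.coeff 0 - G.coeff 0 * H.coeff 1) ^ (p ^ e), pow_ne_zero _ h2, ?_⟩
  unfold cr
  rw [h1, h1]
  dsimp only
  rw [← mul_pow, ← mul_pow, ← sub_pow_char_pow, ← mul_pow]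
  congr 1
  rw [hom_deg_one, hom_deg_one, hom_deg_one, hom_deg_one]
  ring

theorem critical_of_deg_one {R : RatFunc F} (hE : 1 ≤ rdeg R) {G H : K[X]} {e : ℕ}
    (hW : wr G H ≠ 0) (hdG : dg G H = 1)
    (hg : gK K R = G ^ (p ^ e)) (hh : hK K R = H ^ (p ^ e)) (α : K) : IsCritical R α := by
  refine ⟨1, fun n => ?_⟩
  rw [Nat.cast_one, Set.encard_le_one_iff]
  intro x y hx hy
  by_contra hxy
  have hit : ∀ n : ℕ, ∀ v w : K × K, cr v w ≠ 0 → cr ((sv R)^[n] v) ((sv R)^[n] w) ≠ 0 := by
    intro n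
    induction n with
    | zero => intro v w h; exact h
    | succ n ih =>
      intro v w h
      rw [Function.iterate_succ_apply, Function.iterate_succ_apply]
      refine ih _ _ ?_
      obtain ⟨c, hc, h1⟩ := cross_step p hW hdG hg hh v w
      rw [h1]
      exact mul_ne_zero hc (pow_ne_zero _ h)
  obtain ⟨c, hc, h⟩ := sv_iter K R hE n
  have h0 : cr ((x, 1) : K × K) (y, 1) ≠ 0 := by
    unfold cr
    simp only [mul_one, one_mul]
    exact sub_ne_zero.2 hxy
  have h1 := hit n _ _ h0
  rw [mem_solutions] at hx hy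
  have h2 : cr (sv (iter R n) ((x, 1) : K × K)) (sv (iter R n) (y, 1)) = 0 := by
    unfold cr
    rw [hx.2, hy.2]
    ring
  rw [h, h] at h2
  have h3 : ∀ v w : K × K, cr (c • v) (c • w) = c * c * cr v w := by
    intro v w
    unfold cr
    simp only [Prod.smul_fst, Prod.smul_snd, smul_eq_mul]
    ring
  rw [h3] at h2
  exact (mul_ne_zero (mul_ne_zero hc hc) h1) h2

end Q280.AD
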