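import Pool.Agent.Q280.AD.Count

set_option autoImplicit false

/-! Removing inseparability, and the fibre growth estimate for an arbitrary `g / h`. -/

namespace Q280.AD

open Polynomial

set_option linter.unusedSectionVars false

variable {K : Type*} [Field K] [IsAlgClosed K] [DecidableEq K] (p : ℕ) [Fact p.Prime] [CharP K p]

theorem der_zero_of_dvd {f : K[X]} (h : f ∣ derivative f) : derivative f = 0 := by
  by_cases hf : f = 0
  · rw [hf]; simp
  · exact eq_zero_of_dvd_of_degree_lt h (degree_derivative_lt hf)

theorem root_of_der_zero {f : K[X]} (hf : derivative f = 0) : ∃ G : K[X], f = G ^ p := by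
  have hp : p ≠ 0 := (Fact.out : p.Prime).ne_zero
  have : ExpChar K p := ExpChar.prime Fact.out
  refine ⟨(contract p f).map (frobeniusEquiv K p).symm.toRingHom, ?_⟩
  have h1 := expand_contract p hf hp
  have h2 := polynomial_expand_eq K p (contract p f)
  rw [h1] at h2
  exact h2

theorem pred (g h : K[X]) (hc : IsCoprime g h) (hd : 1 ≤ dg g h) :
    ∃ (e : ℕ) (G H : K[X]), IsCoprime G H ∧ 1 ≤ dg G H ∧ wr G H ≠ 0 ∧
      g = G ^ (p ^ e) ∧ h = H ^ (p ^ e) := by
  have hp : p.Prime := Fact.out
  generalize hN : dg g h = N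
  induction N using Nat.strong_induction_on generalizing g h with
  | _ N ih =>
    by_cases hW : wr g h = 0
    · have h1 : derivative g * h = g * derivative h := sub_eq_zero.1 hW
      have h2 : h ∣ derivative h := by
        have : h ∣ g * derivative h := ⟨derivative g, by rw [← h1]; ring⟩
        exact hc.symm.dvd_of_dvd_mul_left this
      have h3 : g ∣ derivative g := by
        have : g ∣ derivative g * h := ⟨derivative h, h1⟩
        exact hc.dvd_of_dvd_mul_right this
      obtain ⟨G, hG⟩ := root_of_der_zero p (der_zero_of_dvd h3)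
      obtain ⟨H, hH⟩ := root_of_der_zero p (der_zero_of_dvd h2)
      have hGH : IsCoprime G H := by
        rw [hG, hH] at hc
        exact (IsCoprime.pow_iff hp.pos hp.pos).1 hc
      have hdeg : dg g h = p * dg G H := by
        unfold dg
        rw [hG, hH, natDegree_pow, natDegree_pow, Nat.mul_max_mul_left]
      have h4 : 1 ≤ dg G H := by
        rcases Nat.eq_zero_or_pos (dg G H) with h0 | h0
        · rw [h0] at hdeg; omega
        · exact h0
      have h5 : dg G H < N := by
        rw [← hN, hdeg]
        nlinarith [hp.two_le]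
      obtain ⟨e, G', H', a1, a2, a3, a4, a5⟩ := ih _ h5 G H hGH h4 rfl
      refine ⟨e + 1, G', H', a1, a2, a3, ?_, ?_⟩
      · rw [hG, a4, ← pow_mul, pow_succ]
      · rw [hH, a5, ← pow_mul, pow_succ]
    · exact ⟨0, g, h, hc, hd, hW, by simp, by simp⟩

/-- the fibres of `g / h` are those of `G / H`, reindexed by a bijection -/
theorem fib_eq {g h G H : K[X]} {e : ℕ} (hc : IsCoprime g h) (hd : 1 ≤ dg g h)
    (hGH : IsCoprime G H) (hdG : 1 ≤ dg G H)
    (hg : g = G ^ (p ^ e)) (hh : h = H ^ (p ^ e)) (s : K) :
    fib g h s = fib G H ((iterateFrobeniusEquiv K p e).symm s) := by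
  ext x
  rw [mem_fib hc hd, mem_fib hGH hdG]
  have h1 : s = ((iterateFrobeniusEquiv K p e).symm s) ^ (p ^ e) := by
    have := (iterateFrobeniusEquiv K p e).apply_symm_apply s
    rw [iterateFrobeniusEquiv_def] at this
    exact this.symm
  set t := (iterateFrobeniusEquiv K p e).symm s with ht
  rw [hg, hh, eval_pow, eval_pow, h1, ← mul_pow]
  constructor
  · intro h2
    have h3 : iterateFrobenius K p e (eval x G) = iterateFrobenius K p e (t * eval x H) := by
      rw [iterateFrobenius_def, iterateFrobenius_def]; exact h2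
    exact iterateFrobenius_inj K p e h3
  · intro h2
    rw [h2]

/-- growth for general `g / h`, with the degree `d` of the reduction -/
theorem growth' {g h G H : K[X]} {e : ℕ} (hc : IsCoprime g h) (hd : 1 ≤ dg g h)
    (hGH : IsCoprime G H) (hdG : 1 ≤ dg G H) (hW : wr G H ≠ 0)
    (hg : g = G ^ (p ^ e)) (hh : h = H ^ (p ^ e)) (S : Finset K) :
    dg G H * S.card ≤ (S.biUnion (fib g h)).card + 3 * dg G H := by
  classical
  have h1 : S.biUnion (fib g h)
      = (S.image (iterateFrobeniusEquiv K p e).symm).biUnion (fib G H) := by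
    rw [Finset.image_biUnion]
    refine Finset.biUnion_congr rfl ?_
    intro s _
    exact fib_eq p hc hd hGH hdG hg hh s
  rw [h1]
  have h2 := growth hGH hdG hW (S.image (iterateFrobeniusEquiv K p e).symm)
  rwa [Finset.card_image_of_injective _ (iterateFrobeniusEquiv K p e).symm.injective] at h2

end Q280.AD
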