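import Pool.Agent.Q280.AD.Def
import Pool.Agent.Q280.AD.PRed

set_option autoImplicit false

/-! Homogeneous evaluation and composition. -/

namespace Q280.AD

open Polynomial

variable {F : Type*} [Field F]

theorem hom_map {A B : Type*} [CommRing A] [Algebra F A] [CommRing B] [Algebra F B]
    (φ : A →ₐ[F] B) (D : ℕ) (a : F[X]) (u v : A) : φ (hom D a u v) = hom D a (φ u) (φ v) := by
  unfold hom
  simp

theorem hom_smul {A : Type*} [CommRing A] [Algebra F A] (D : ℕ) (a : F[X]) (c u v : A) :
    hom D a (c * u) (c * v) = c ^ D * hom D a u v := by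
  unfold hom
  rw [Finset.mul_sum]
  refine Finset.sum_congr rfl fun i hi => ?_
  rw [Finset.mem_range] at hi
  have : c ^ D = c ^ i * c ^ (D - i) := by rw [← pow_add]; congr 1; omega
  rw [this, mul_pow, mul_pow]
  ring

theorem hom_zero_right {A : Type*} [CommRing A] [Algebra F A] (D : ℕ) (a : F[X]) (u : A) :
    hom D a u 0 = algebraMap F A (a.coeff D) * u ^ D := by
  unfold hom
  rw [Finset.sum_range_succ, Finset.sum_eq_zero, Nat.sub_self, pow_zero, mul_one, zero_add]
  intro i hi
  rw [Finset.mem_range] at hi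
  rw [zero_pow (by omega), mul_zero]

theorem hom_div {A : Type*} [Field A] [Algebra F A] {D : ℕ} {a : F[X]} (ha : a.natDegree ≤ D)
    (u : A) {v : A} (hv : v ≠ 0) : hom D a u v = v ^ D * aeval (u / v) a := by
  unfold hom
  rw [aeval_eq_sum_range' (Nat.lt_succ_of_le ha), Finset.mul_sum]
  refine Finset.sum_congr rfl fun i hi => ?_
  rw [Finset.mem_range] at hi
  have : v ^ D = v ^ i * v ^ (D - i) := by rw [← pow_add]; congr 1; omega
  rw [this, Algebra.smul_def, div_pow]
  field_simp

theorem hom_one {A : Type*} [Field A] [Algebra F A] {D : ℕ} {a : F[X]} (ha : a.natDegree ≤ D)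
    (u : A) : hom D a u 1 = aeval u a := by
  rw [hom_div ha u one_ne_zero, one_pow, one_mul, div_one]

theorem hom_ne_zero {A : Type*} [Field A] [Algebra F A] {a b : F[X]} (hab : IsCoprime a b)
    {D : ℕ} (hD : D = max a.natDegree b.natDegree) {u v : A} (h : ¬ (u = 0 ∧ v = 0)) :
    ¬ (hom D a u v = 0 ∧ hom D b u v = 0) := by
  rintro ⟨h1, h2⟩
  by_cases hv : v = 0
  · have hu : u ≠ 0 := fun h0 => h ⟨h0, hv⟩
    rw [hv, hom_zero_right] at h1 h2
    have hD' : u ^ D ≠ 0 := pow_ne_zero _ hu
    have h3 : a.coeff D = 0 := by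
      rcases mul_eq_zero.1 h1 with h | h
      · exact (map_eq_zero _).1 h
      · exact absurd h hD'
    have h4 : b.coeff D = 0 := by
      rcases mul_eq_zero.1 h2 with h | h
      · exact (map_eq_zero _).1 h
      · exact absurd h hD'
    have key : a = 0 ∧ b = 0 := by
      rcases le_total a.natDegree b.natDegree with hl | hl
      · rw [hD, max_eq_right hl] at h3 h4
        have hh : b = 0 := leadingCoeff_eq_zero.1 h4
        rw [hh] at hl h3
        simp only [natDegree_zero, nonpos_iff_eq_zero] at hl h3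
        refine ⟨?_, hh⟩
        rw [← hl] at h3
        exact leadingCoeff_eq_zero.1 h3
      · rw [hD, max_eq_left hl] at h3 h4
        have hh : a = 0 := leadingCoeff_eq_zero.1 h3
        rw [hh] at hl h4
        simp only [natDegree_zero, nonpos_iff_eq_zero] at hl h4
        refine ⟨hh, ?_⟩
        rw [← hl] at h4
        exact leadingCoeff_eq_zero.1 h4
    rw [key.1, key.2] at hab
    exact not_isCoprime_zero_zero hab
  · rw [hom_div (hD ▸ le_max_left _ _) u hv] at h1
    rw [hom_div (hD ▸ le_max_right _ _) u hv] at h2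
    have h5 : v ^ D ≠ 0 := pow_ne_zero _ hv
    have h6 : aeval (u / v) a = 0 := (mul_eq_zero.1 h1).resolve_left h5
    have h7 : aeval (u / v) b = 0 := (mul_eq_zero.1 h2).resolve_left h5
    obtain ⟨r, s, hrs⟩ := hab
    have := congrArg (aeval (u / v)) hrs
    simp [h6, h7] at this

theorem coeff_hom {D E : ℕ} (a g h : F[X]) (hg : g.natDegree ≤ E) (hh : h.natDegree ≤ E) :
    (hom D a g h).coeff (D * E) = hom D a (g.coeff E) (h.coeff E) := by
  unfold hom
  rw [finsetSum_coeff]
  refine Finset.sum_congr rfl fun i hi => ?_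
  rw [Finset.mem_range] at hi
  have h1 : (g ^ i).natDegree ≤ i * E := by
    refine natDegree_pow_le.trans (Nat.mul_le_mul_left _ hg)
  have h2 : (h ^ (D - i)).natDegree ≤ (D - i) * E := by
    refine natDegree_pow_le.trans (Nat.mul_le_mul_left _ hh)
  have h3 : D * E = i * E + (D - i) * E := by rw [← add_mul]; congr 1; omega
  rw [Polynomial.algebraMap_apply, Algebra.algebraMap_self, RingHom.id_apply, mul_assoc,
    coeff_C_mul, h3, coeff_mul_add_eq_of_natDegree_le h1 h2, coeff_pow_of_natDegree_le hg,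
    coeff_pow_of_natDegree_le hh, mul_assoc]

theorem natDegree_hom_le {D E : ℕ} (a g h : F[X]) (hg : g.natDegree ≤ E)
    (hh : h.natDegree ≤ E) : (hom D a g h).natDegree ≤ D * E := by
  unfold hom
  refine natDegree_sum_le_of_forall_le _ _ fun i hi => ?_
  rw [Finset.mem_range] at hi
  have h1 : (g ^ i).natDegree ≤ i * E := by
    refine natDegree_pow_le.trans (Nat.mul_le_mul_left _ hg)
  have h2 : (h ^ (D - i)).natDegree ≤ (D - i) * E := by
    refine natDegree_pow_le.trans (Nat.mul_le_mul_left _ hh)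
  have h3 : D * E = i * E + (D - i) * E := by rw [← add_mul]; congr 1; omega
  rw [Polynomial.algebraMap_apply, Algebra.algebraMap_self, RingHom.id_apply, mul_assoc]
  refine (natDegree_C_mul_le _ _).trans (natDegree_mul_le.trans ?_)
  rw [h3]
  exact add_le_add h1 h2

/-- degree of a rational function -/
noncomputable def rdeg (S : RatFunc F) : ℕ := max S.num.natDegree S.denom.natDegree

theorem num_le (S : RatFunc F) : S.num.natDegree ≤ rdeg S := le_max_left _ _

theorem den_le (S : RatFunc F) : S.denom.natDegree ≤ rdeg S := le_max_right _ _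

/-- composition -/
noncomputable def comp (S R : RatFunc F) : RatFunc F := RatFunc.eval RatFunc.C R S

theorem lead_ne (R : RatFunc F) :
    ¬ (R.num.coeff (rdeg R) = 0 ∧ R.denom.coeff (rdeg R) = 0) := by
  have h := hom_ne_zero (A := F) R.isCoprime_num_denom (D := rdeg R) rfl (u := 1) (v := 0)
    (fun h => one_ne_zero h.1)
  simpa [hom_zero_right] using h

theorem comp_num_denom (K : Type*) [Field K] [IsAlgClosed K] [Algebra F K] (S R : RatFunc F)
    (hE : 1 ≤ rdeg R) :
    ∃ u : F, u ≠ 0 ∧ (comp S R).num = C u * hom (rdeg S) S.num R.num R.denom ∧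
      (comp S R).denom = C u * hom (rdeg S) S.denom R.num R.denom := by
  set G := hom (rdeg S) S.num R.num R.denom with hG
  set H := hom (rdeg S) S.denom R.num R.denom with hH
  have hR : (algebraMap F[X] (RatFunc F)) R.denom ≠ 0 := RatFunc.algebraMap_ne_zero R.denom_ne_zero
  have hcop : IsCoprime G H := by
    rw [isCoprime_iff_aeval_ne_zero_of_isAlgClosed F K]
    intro x
    have h1 : aeval x G = hom (rdeg S) S.num (aeval x R.num) (aeval x R.denom) := by
      rw [hG]; exact hom_map (aeval x) _ _ _ _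
    have h2 : aeval x H = hom (rdeg S) S.denom (aeval x R.num) (aeval x R.denom) := by
      rw [hH]; exact hom_map (aeval x) _ _ _ _
    rw [h1, h2]
    have h3 : ¬ (aeval x R.num = 0 ∧ aeval x R.denom = 0) := by
      rintro ⟨h4, h5⟩
      obtain ⟨r, s, hrs⟩ := R.isCoprime_num_denom
      have := congrArg (aeval x) hrs
      simp [h4, h5] at this
    have h6 := hom_ne_zero S.isCoprime_num_denom (D := rdeg S) rfl h3
    by_contra h7
    push Not at h7
    exact h6 h7
  -- values in `F(X)`
  have hval : ∀ a : F[X], a.natDegree ≤ rdeg S →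
      algebraMap F[X] (RatFunc F) (hom (rdeg S) a R.num R.denom)
        = (algebraMap F[X] (RatFunc F) R.denom) ^ (rdeg S) * a.eval₂ RatFunc.C R := by
    intro a ha
    have h1 := hom_map (IsScalarTower.toAlgHom F F[X] (RatFunc F)) (rdeg S) a R.num R.denom
    simp only [IsScalarTower.coe_toAlgHom'] at h1
    rw [h1, hom_div ha _ hR, RatFunc.num_div_denom, aeval_def, RatFunc.algebraMap_eq_C]
  have hcoef : ¬ (G.coeff (rdeg S * rdeg R) = 0 ∧ H.coeff (rdeg S * rdeg R) = 0) := by
    rw [hG, hH, coeff_hom _ _ _ (num_le R) (den_le R),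
      coeff_hom _ _ _ (num_le R) (den_le R)]
    exact hom_ne_zero S.isCoprime_num_denom rfl (lead_ne R)
  have hH0 : H ≠ 0 := by
    intro h0
    rw [h0] at hcop
    have h1 : IsUnit G := isCoprime_zero_right.1 hcop
    rcases Nat.eq_zero_or_pos (rdeg S) with hD | hD
    · have h2 : S.denom = 1 := by
        refine (Monic.natDegree_eq_zero (RatFunc.monic_denom S)).1 ?_
        have := le_max_right S.num.natDegree S.denom.natDegree
        unfold rdeg at hD
        omega
      rw [hH, hD, h2] at h0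
      simp [hom] at h0
    · refine hcoef ⟨?_, by rw [h0]; simp⟩
      refine coeff_eq_zero_of_natDegree_lt ?_
      rw [natDegree_eq_zero_of_isUnit h1]
      positivity
  have hcomp : comp S R = algebraMap F[X] (RatFunc F) G / algebraMap F[X] (RatFunc F) H := by
    rw [hG, hH, hval _ (le_max_left _ _), hval _ (le_max_right _ _)]
    unfold comp RatFunc.eval
    rw [mul_div_mul_left _ _ (pow_ne_zero _ hR)]
  have hNM : (comp S R).num * H = G * (comp S R).denom := by
    have h1 := RatFunc.num_div_denom (comp S R)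
    have hd : (algebraMap F[X] (RatFunc F)) (comp S R).denom ≠ 0 :=
      RatFunc.algebraMap_ne_zero (comp S R).denom_ne_zero
    have hHH : (algebraMap F[X] (RatFunc F)) H ≠ 0 := RatFunc.algebraMap_ne_zero hH0
    rw [hcomp] at h1
    rw [← hcomp] at h1
    have h2 : algebraMap F[X] (RatFunc F) (comp S R).num
        / algebraMap F[X] (RatFunc F) (comp S R).denom
        = algebraMap F[X] (RatFunc F) G / algebraMap F[X] (RatFunc F) H := by
      rw [h1, hcomp]
    rw [div_eq_div_iff hd hHH, ← map_mul, ← map_mul] at h2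
    exact RatFunc.algebraMap_injective F h2
  have hM := (comp S R).isCoprime_num_denom
  have h3 : H ∣ (comp S R).denom := by
    have : H ∣ G * (comp S R).denom := ⟨(comp S R).num, by rw [← hNM]; ring⟩
    exact hcop.symm.dvd_of_dvd_mul_left this
  have h4 : (comp S R).denom ∣ H := by
    have : (comp S R).denom ∣ (comp S R).num * H := ⟨G, by rw [hNM]; ring⟩
    exact hM.symm.dvd_of_dvd_mul_left this
  obtain ⟨w, hw⟩ := associated_of_dvd_dvd h3 h4
  obtain ⟨u, hu, huw⟩ := Polynomial.isUnit_iff.1 w.isUnit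
  refine ⟨u, hu.ne_zero, ?_, ?_⟩
  · rw [← hw, ← huw] at hNM
    have : (comp S R).num * H = (C u * G) * H := by rw [hNM]; ring
    exact mul_right_cancel₀ hH0 this
  · rw [← hw, ← huw]; ring

theorem rdeg_comp (K : Type*) [Field K] [IsAlgClosed K] [Algebra F K] (S R : RatFunc F)
    (hE : 1 ≤ rdeg R) : rdeg (comp S R) = rdeg S * rdeg R := by
  obtain ⟨u, hu, h1, h2⟩ := comp_num_denom K S R hE
  have hcoef : ¬ ((hom (rdeg S) S.num R.num R.denom).coeff (rdeg S * rdeg R) = 0 ∧
      (hom (rdeg S) S.denom R.num R.denom).coeff (rdeg S * rdeg R) = 0) := by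
    rw [coeff_hom _ _ _ (num_le R) (den_le R),
      coeff_hom _ _ _ (num_le R) (den_le R)]
    exact hom_ne_zero S.isCoprime_num_denom rfl (lead_ne R)
  have e1 : rdeg (comp S R) = max (hom (rdeg S) S.num R.num R.denom).natDegree
      (hom (rdeg S) S.denom R.num R.denom).natDegree := by
    unfold rdeg at *
    rw [h1, h2, natDegree_C_mul hu, natDegree_C_mul hu]
  rw [e1]
  refine le_antisymm (max_le ?_ ?_) ?_
  · exact natDegree_hom_le _ _ _ (le_max_left _ _) (le_max_right _ _)
  · exact natDegree_hom_le _ _ _ (le_max_left _ _) (le_max_right _ _)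
  · by_contra hlt
    push Not at hlt
    rw [max_lt_iff] at hlt
    exact hcoef ⟨coeff_eq_zero_of_natDegree_lt hlt.1, coeff_eq_zero_of_natDegree_lt hlt.2⟩

/-- the map on homogeneous coordinates -/
noncomputable def sv {K : Type*} [Field K] [Algebra F K] (S : RatFunc F) (v : K × K) : K × K :=
  (hom (rdeg S) S.num v.1 v.2, hom (rdeg S) S.denom v.1 v.2)

theorem sv_ne {K : Type*} [Field K] [Algebra F K] (S : RatFunc F) {v : K × K} (hv : v ≠ 0) :
    sv S v ≠ 0 := by
  intro h
  rw [Prod.ext_iff] at h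
  exact hom_ne_zero S.isCoprime_num_denom (D := rdeg S) rfl
    (fun h0 => hv (Prod.ext h0.1 h0.2)) h

theorem sv_smul {K : Type*} [Field K] [Algebra F K] (S : RatFunc F) (c : K) (v : K × K) :
    sv S (c • v) = c ^ (rdeg S) • sv S v := by
  unfold sv
  simp only [Prod.smul_fst, Prod.smul_snd, smul_eq_mul, Prod.smul_mk, hom_smul]

theorem hom_C_mul {A : Type*} [CommRing A] [Algebra F A] (D : ℕ) (a : F[X]) (c : F) (u v : A) :
    hom D (C c * a) u v = algebraMap F A c * hom D a u v := by
  unfold hom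
  rw [Finset.mul_sum]
  refine Finset.sum_congr rfl fun i _ => ?_
  rw [coeff_C_mul, map_mul]
  ring

theorem hom_hom {K : Type*} [Field K] [Algebra F K] {D E : ℕ} (a g h : F[X])
    (hg : g.natDegree ≤ E) (hh : h.natDegree ≤ E) (u v : K) :
    hom (D * E) (hom D a g h) u v = hom D a (hom E g u v) (hom E h u v) := by
  by_cases hv : v = 0
  · rw [hv, hom_zero_right, hom_zero_right, hom_zero_right, coeff_hom _ _ _ hg hh]
    have h1 : algebraMap F K (hom D a (g.coeff E) (h.coeff E))
        = hom D a (algebraMap F K (g.coeff E)) (algebraMap F K (h.coeff E)) := by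
      have := hom_map (Algebra.ofId F K) D a (g.coeff E) (h.coeff E)
      simpa [Algebra.ofId_apply] using this
    rw [h1, mul_comm _ (u ^ E), mul_comm _ (u ^ E), hom_smul, ← pow_mul, mul_comm E D]
    ring
  · rw [hom_div (natDegree_hom_le _ _ _ hg hh) u hv, hom_div hg u hv, hom_div hh u hv,
      hom_map (aeval (u / v)), hom_smul, ← pow_mul, mul_comm E D]

theorem sv_comp (K : Type*) [Field K] [IsAlgClosed K] [Algebra F K] (S R : RatFunc F)
    (hE : 1 ≤ rdeg R) : ∃ c : K, c ≠ 0 ∧ ∀ v : K × K, sv (comp S R) v = c • sv S (sv R v) := by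
  obtain ⟨u, hu, h1, h2⟩ := comp_num_denom K S R hE
  refine ⟨algebraMap F K u, (_root_.map_ne_zero _).2 hu, fun v => ?_⟩
  have h3 := rdeg_comp K S R hE
  unfold sv
  rw [h3, h1, h2, hom_C_mul, hom_C_mul,
    hom_hom _ _ _ (num_le R) (den_le R), hom_hom _ _ _ (num_le R) (den_le R)]
  rfl

theorem rdeg_X : rdeg (RatFunc.X : RatFunc F) = 1 := by
  unfold rdeg
  rw [RatFunc.num_X, RatFunc.denom_X]
  simp

theorem sv_X {K : Type*} [Field K] [Algebra F K] (v : K × K) :
    sv (RatFunc.X : RatFunc F) v = v := by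
  unfold sv
  rw [rdeg_X, RatFunc.num_X, RatFunc.denom_X]
  unfold hom
  simp [coeff_X, coeff_one]

theorem sv_iter (K : Type*) [Field K] [IsAlgClosed K] [Algebra F K] (R : RatFunc F)
    (hE : 1 ≤ rdeg R) (n : ℕ) :
    ∃ c : K, c ≠ 0 ∧ ∀ v : K × K, sv (iter R n) v = c • (sv R)^[n] v := by
  induction n with
  | zero => exact ⟨1, one_ne_zero, fun v => by simp [iter, sv_X]⟩
  | succ n ih =>
    obtain ⟨c, hc, h⟩ := ih
    obtain ⟨c', hc', h'⟩ := sv_comp K (iter R n) R hE
    refine ⟨c' * c, mul_ne_zero hc' hc, fun v => ?_⟩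
    have : iter R (n + 1) = comp (iter R n) R := rfl
    rw [this, h', h, Function.iterate_succ_apply, smul_smul]

theorem mem_solutions {K : Type*} [Field K] [Algebra F K] (S : RatFunc F) (α x : K) :
    x ∈ solutions S α ↔ (sv S (x, 1)).2 ≠ 0 ∧ (sv S (x, 1)).1 = α * (sv S (x, 1)).2 := by
  unfold solutions sv
  rw [Set.mem_ofPred_eq]
  dsimp only
  rw [hom_one (num_le S), hom_one (den_le S)]
  constructor
  · rintro ⟨h1, h2⟩
    exact ⟨h1, by rw [← h2]; field_simp⟩
  · rintro ⟨h1, h2⟩
    exact ⟨h1, by rw [h2]; field_simp⟩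

end Q280.AD
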