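import Pool.Agent.Q280.AD.Avg

set_option autoImplicit false

/-! Assembly. -/

namespace Q280.AD

open Polynomial

set_option linter.unusedSectionVars false

variable {F : Type*} [Field F] [Finite F]

theorem exists_red (K : Type*) [Field K] [IsAlgClosed K] [DecidableEq K] [Algebra F K]
    {R : RatFunc F} (hE : 1 ≤ rdeg R) :
    ∃ d : ℕ, 1 ≤ d ∧ (∀ S : Finset K, d * S.card ≤ (S.biUnion (fibR K R)).card + 3 * d) ∧
      (d = 1 → ∀ α : K, IsCritical R α) ∧
      (d = 1 → ∀ S : Finset K, (S.biUnion (fibR K R)).card ≤ S.card) := by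
  obtain ⟨p, hp⟩ := CharP.exists F
  have hpp : p.Prime := CharP.char_is_prime F p
  have : Fact p.Prime := ⟨hpp⟩
  have : CharP K p := (Algebra.charP_iff F K p).1 hp
  have hd : 1 ≤ dg (gK K R) (hK K R) := by rw [dg_K]; exact hE
  obtain ⟨e, G, H, h1, h2, h3, h4, h5⟩ := pred p (gK K R) (hK K R) (cop_K R) hd
  refine ⟨dg G H, h2, ?_, ?_, ?_⟩
  · intro S
    exact growth' p (cop_K R) hd h1 h2 h3 h4 h5 S
  · intro hd1 α
    exact critical_of_deg_one p hE h3 hd1 h4 h5 α
  · intro hd1 S
    refine Finset.card_biUnion_le.trans ?_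
    calc ∑ s ∈ S, (fibR K R s).card ≤ ∑ _s ∈ S, 1 := by
          refine Finset.sum_le_sum fun s _ => ?_
          unfold fibR
          rw [fib_eq p (cop_K R) hd h1 h2 h4 h5, ← hd1]
          exact fib_card _
      _ = S.card := by simp

variable {K : Type*} [Field K] [IsAlgClosed K] [DecidableEq K] [Algebra F K]

omit [Finite F] in
theorem sol_subset {R : RatFunc F} (hE : 1 ≤ rdeg R) {f : F[X]} (hf : f ≠ 0) {α : K}
    (hα : aeval α f = 0) (hinf : ∀ n, ¬ TakesAtInfinity (iter R n) α) (n : ℕ) :
    ∀ x ∈ solutions (iter R n) α, x ∈ rootsK K (transforms R f n) := by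
  induction n with
  | zero =>
    intro x hx
    rw [mem_solutions] at hx
    have h1 : iter R 0 = RatFunc.X := rfl
    rw [h1, sv_X] at hx
    have h2 : x = α := by simpa using hx.2
    have h3 : transforms R f 0 = f := rfl
    rw [h3, mem_rootsK hf, h2]
    exact hα
  | succ n ih =>
    intro x hx
    have h3 : transforms R f (n + 1) = transform R (transforms R f n) := rfl
    rw [h3, rootsK_transform hE (transforms_ne_zero K hE hf n), Finset.mem_biUnion]
    rw [mem_solutions] at hx
    have h1 : iter R (n + 1) = comp (iter R n) R := rfl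
    obtain ⟨c, hc, h⟩ := sv_comp K (iter R n) R hE
    have h2 : sv R ((x, 1) : K × K) = (aeval x R.num, aeval x R.denom) := by
      unfold sv
      dsimp only
      rw [hom_one (num_le R), hom_one (den_le R)]
    rw [h1, h, h2] at hx
    simp only [Prod.smul_fst, Prod.smul_snd, smul_eq_mul] at hx
    by_cases hx0 : aeval x R.denom = 0
    · exfalso
      apply hinf n
      rw [hx0] at hx
      unfold sv at hx
      dsimp only at hx
      rw [hom_zero_right, hom_zero_right] at hx
      have hg : (aeval x R.num) ^ (rdeg (iter R n)) ≠ 0 := pow_ne_zero _ (num_ne_of_den hx0)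
      have hb : (iter R n).denom.coeff (rdeg (iter R n)) ≠ 0 := by
        intro h0
        rw [h0] at hx
        simp at hx
      have hb' : (iter R n).denom.natDegree = rdeg (iter R n) :=
        le_antisymm (den_le _) (le_natDegree_of_ne_zero hb)
      refine ⟨?_, ?_⟩
      · rw [hb']; exact num_le _
      · rw [hb']
        have hb1 : (iter R n).denom.coeff (rdeg (iter R n)) = 1 := by
          rw [← hb']; exact RatFunc.monic_denom (iter R n)
        rw [hb1, map_one, one_mul] at hx
        have h6 := hx.2
        have h7 : c * (aeval x R.num) ^ (rdeg (iter R n)) ≠ 0 := mul_ne_zero hc hg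
        have h8 : algebraMap F K ((iter R n).num.coeff (rdeg (iter R n)))
            * (c * (aeval x R.num) ^ (rdeg (iter R n)))
            = α * (c * (aeval x R.num) ^ (rdeg (iter R n))) := by
          rw [← h6]; ring
        exact mul_right_cancel₀ h7 h8
    · refine ⟨aeval x R.num / aeval x R.denom, ih _ ?_, ?_⟩
      · have h4 : ((aeval x R.num, aeval x R.denom) : K × K)
            = (aeval x R.denom) • ((aeval x R.num / aeval x R.denom, 1) : K × K) := by
          simp only [Prod.smul_mk, smul_eq_mul, mul_one]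
          rw [mul_div_cancel₀ _ hx0]
        rw [h4, sv_smul] at hx
        simp only [Prod.smul_fst, Prod.smul_snd, smul_eq_mul] at hx
        rw [mem_solutions]
        have h5 : c * (aeval x R.denom) ^ (rdeg (iter R n)) ≠ 0 :=
          mul_ne_zero hc (pow_ne_zero _ hx0)
        refine ⟨fun h0 => ?_, ?_⟩
        · apply hx.1
          rw [h0]; ring
        · refine mul_left_cancel₀ h5 ?_
          linear_combination hx.2
      · rw [mem_fibR hE]
        field_simp

omit [Finite F] in
theorem large_of_not_critical {R : RatFunc F} {α : K} (hcrit : ¬ IsCritical R α)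
    {T : ℕ → Finset K} (h : ∀ n, ∀ x ∈ solutions (iter R n) α, x ∈ T n) :
    ∃ n0, 7 ≤ (T n0).card := by
  unfold IsCritical at hcrit
  push Not at hcrit
  obtain ⟨n, hn⟩ := hcrit 6
  refine ⟨n, ?_⟩
  have h1 : (solutions (iter R n) α).encard ≤ ((T n : Set K)).encard :=
    Set.encard_le_encard fun x hx => h n x hx
  rw [Set.encard_coe_eq_coe_finsetCard] at h1
  have h2 := hn.trans_le h1
  have h3 : (6 : ℕ) < (T n).card := by exact_mod_cast h2
  exact h3

theorem two_le_of_not_critical {R : RatFunc F} {α : K} (hcrit : ¬ IsCritical R α) {d : ℕ}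
    (hd : 1 ≤ d) (h : d = 1 → ∀ α : K, IsCritical R α) : 2 ≤ d := by
  by_contra hlt
  exact hcrit (h (by omega) α)

theorem composition_growth {R : RatFunc F} (hE : 1 ≤ rdeg R) {f : F[X]} (hf : f ≠ 0) {α : K}
    (hα : aeval α f = 0) (hcrit : ¬ IsCritical R α) :
    ∃ c : ℝ, 0 < c ∧ ∀ᶠ n : ℕ in Filter.atTop, c * n ≤ averageDegree (transform (iter R n) f) := by
  obtain ⟨d, hd, h1, h2, _⟩ := exists_red K hE
  have hd2 := two_le_of_not_critical hcrit hd h2
  have hP : ∀ n, transform (iter R n) f ≠ 0 := fun n =>
    transform_ne_zero K (rdeg_iter K hE n) hf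
  have hstep : ∀ n, (rootsK K (transform (iter R n) f)).biUnion (fibR K R)
      ⊆ rootsK K (transform (iter R (n + 1)) f) := by
    intro n x hx
    rw [Finset.mem_biUnion] at hx
    obtain ⟨y, hy, hxy⟩ := hx
    rw [rootsK_transform (rdeg_iter K hE _) hf, Finset.mem_biUnion] at hy ⊢
    obtain ⟨a, ha, hya⟩ := hy
    refine ⟨a, ha, ?_⟩
    rw [mem_fibR_iff_solutions (rdeg_iter K hE _)] at hya ⊢
    exact sol_step hE hya hxy
  have hg : ∀ n, d * (rootsK K (transform (iter R n) f)).card
      ≤ (rootsK K (transform (iter R (n + 1)) f)).card + 3 * d := by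
    intro n
    have := Finset.card_le_card (hstep n)
    have := h1 (rootsK K (transform (iter R n) f))
    omega
  obtain ⟨n0, hn0⟩ := large_of_not_critical hcrit
    (T := fun n => rootsK K (transform (iter R n) f)) (by
      intro n x hx
      rw [rootsK_transform (rdeg_iter K hE _) hf, Finset.mem_biUnion]
      exact ⟨α, (mem_rootsK hf α).2 hα, (mem_fibR_iff_solutions (rdeg_iter K hE _) _ _).2 hx⟩)
  refine avg_growth (K := K) hP (n0 := n0) fun k => ?_
  have := seq_growth hd2 hg hn0 k
  omega

theorem iterated_step {R : RatFunc F} (hE : 1 ≤ rdeg R) {f : F[X]} (hf : f ≠ 0) (n : ℕ) :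
    rootsK K (transforms R f (n + 1)) = (rootsK K (transforms R f n)).biUnion (fibR K R) := by
  have h3 : transforms R f (n + 1) = transform R (transforms R f n) := rfl
  rw [h3, rootsK_transform hE (transforms_ne_zero K hE hf n)]

theorem iterated_growth {R : RatFunc F} (hE : 1 ≤ rdeg R) {f : F[X]} (hf : f ≠ 0) {α : K}
    (hα : aeval α f = 0) (hcrit : ¬ IsCritical R α)
    (hinf : ∀ n, ¬ TakesAtInfinity (iter R n) α) :
    ∃ c : ℝ, 0 < c ∧ ∀ᶠ n : ℕ in Filter.atTop, c * n ≤ averageDegree (transforms R f n) := by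
  obtain ⟨d, hd, h1, h2, _⟩ := exists_red K hE
  have hd2 := two_le_of_not_critical hcrit hd h2
  have hg : ∀ n, d * (rootsK K (transforms R f n)).card
      ≤ (rootsK K (transforms R f (n + 1))).card + 3 * d := by
    intro n
    rw [iterated_step hE hf]
    exact h1 _
  obtain ⟨n0, hn0⟩ := large_of_not_critical hcrit
    (T := fun n => rootsK K (transforms R f n)) (sol_subset hE hf hα hinf)
  refine avg_growth (K := K) (transforms_ne_zero K hE hf) (n0 := n0) fun k => ?_
  have := seq_growth hd2 hg hn0 k
  omega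

theorem dichotomy (K : Type*) [Field K] [IsAlgClosed K] [DecidableEq K] [Algebra F K]
    {R : RatFunc F} (hE : 1 ≤ rdeg R) {f : F[X]} (hf : f ≠ 0) :
    (∃ B : ℕ, ∀ n, delta (transforms R f n) ≤ B) ∨
    ∃ c : ℝ, 0 < c ∧ ∀ᶠ n : ℕ in Filter.atTop, c * n ≤ averageDegree (transforms R f n) := by
  obtain ⟨d, hd, h1, _, h2⟩ := exists_red K hE
  have hδ : ∀ n, delta (transforms R f n) ≤ (rootsK K (transforms R f n)).card := fun n =>
    delta_le_card_roots (transforms_ne_zero K hE hf n)
  rcases Nat.lt_or_ge d 2 with hd2 | hd2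
  · left
    refine ⟨(rootsK K f).card, fun n => (hδ n).trans ?_⟩
    induction n with
    | zero => exact le_rfl
    | succ n ih =>
      rw [iterated_step hE hf]
      exact (h2 (by omega) _).trans ih
  · by_cases h : ∃ n0, 7 ≤ (rootsK K (transforms R f n0)).card
    · right
      obtain ⟨n0, hn0⟩ := h
      have hg : ∀ n, d * (rootsK K (transforms R f n)).card
          ≤ (rootsK K (transforms R f (n + 1))).card + 3 * d := by
        intro n
        rw [iterated_step hE hf]
        exact h1 _
      refine avg_growth (K := K) (transforms_ne_zero K hE hf) (n0 := n0) fun k => ?_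
      have := seq_growth hd2 hg hn0 k
      omega
    · left
      push Not at h
      exact ⟨6, fun n => (hδ n).trans (by have := h n; omega)⟩

end Q280.AD
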